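import Pool.Agent.H875.PL.Orb3

/-!
# Galois coverings of the plane branched along pseudolines with `3 σ = e`

An arrangement of pseudolines in the real projective plane is the real part of an arrangement of symplectic lines in the
complex projective plane (Ruberman and Starkston). We consider the closed symplectic four-manifolds which are Galois
coverings of the complex projective plane, ramified of order `n ≥ 2` over each of the symplectic lines, and of
arbitrary orders `m P ≥ 2` over the exceptional curves of the blow-up of the points `P` of multiplicity at least
three. If the arrangement is not stretchable then these are not given by an arrangement of complex lines. Coverings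
which are ruled by the lines through a point are excluded.

The theorem: the Euler characteristic and the signature of such a covering satisfy `3 σ = e` if and only if there are
only three pseudolines (then the covering is the complex projective plane), or the arrangement is combinatorially the
complete quadrilateral and `1 / m = (1 - 3 / n) / 2`, or there are nine pseudolines with the numbers of points of the
reflection arrangement `B_3` and the orders are `4`, `8` and `2`. The coverings of the last two kinds are
quotients of the ball (Deligne and Mostow, Hirzebruch), so they are not simply connected.

The proof is combinatorial. Besides Melchior's inequality it uses a new inequality for arrangements of `k` pseudolines in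
which no point is on more than `k - 3` of them, `t_2 + t_3 ≥ 7 + ∑ (2 r - 7) t_r` (the sum is over `r ≥ 4`), which is
proved by a local count of the flags (`Arrangement.star`), and, for `n = 2`, sums of squares over the pseudolines.
-/

set_option autoImplicit false

namespace Pool.Agent.Results.MP_dbd540_gt.BranchedAlongPseudolines

open Pool.Agent.H875.PL

/-- **The coverings branched along pseudolines with `3 σ = e`.** -/
theorem result {k : ℕ} {Φ : Type} [Fintype Φ] [DecidableEq Φ] (A : Arrangement k Φ) (hk : 3 ≤ k) {n : ℕ}
    (hn : 2 ≤ n) {m : Finset Φ → ℕ} (hm : A.NotRuled n m) {e σ : ℤ} (h : A.OrbCovering n m e σ) :
    3 * σ = e ↔ k = 3 ∨ A.Quad n m ∨ A.BThree n m :=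
  (A.orb_bmy_all hk hn hm h).2

end Pool.Agent.Results.MP_dbd540_gt.BranchedAlongPseudolines
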